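import Pool.Agent.Lib.MP_7ffbdd_al.Pdim

set_option autoImplicit false

namespace Pool.Agent.Results.MP_7ffbdd_al.SpdimGtPdim

open MvPolynomial Pool.Agent.Lib.MP_7ffbdd_al

/-- Over every field there is a nonzero squarefree monomial ideal of projective dimension at most
two all of whose Stanley decompositions have a nonzero piece with at most `n - 3` variables. -/
theorem result (K : Type) [Field K] :
    ∃ (n : ℕ) (I : Ideal (MvPolynomial (Fin n) K)),
      (∃ s : Set (Fin n →₀ ℕ), (∀ a ∈ s, ∀ j, a j ≤ 1) ∧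
        I = Ideal.span ((fun a => monomial a (1 : K)) '' s)) ∧
      I ≠ ⊥ ∧
      CategoryTheory.projectiveDimension (ModuleCat.of (MvPolynomial (Fin n) K) I) ≤ 2 ∧
      ∀ (r : ℕ) (u : Fin r → MvPolynomial (Fin n) K) (Z : Fin r → Finset (Fin n)),
        (∀ i, ∃ a : Fin n → ℤ,
          IsWeightedHomogeneous (fun j => (Pi.single j 1 : Fin n → ℤ)) (u i) a) →
        iSupIndep (fun i => Submodule.map (LinearMap.mulLeft K (u i))
          (Subalgebra.toSubmodule (supported K (Z i : Set (Fin n))))) →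
        (⨆ i, Submodule.map (LinearMap.mulLeft K (u i))
          (Subalgebra.toSubmodule (supported K (Z i : Set (Fin n))))) = I.restrictScalars K →
        ∃ i, u i ≠ 0 ∧ (Z i).card + 3 ≤ n := by
  classical
  let τ := Fin 6 × (Fin 3 → Fin 193)
  let n := Fintype.card τ
  let e : τ ↪ Fin n := (Fintype.equivFin τ).toEmbedding
  have hG := glued_phi0 193 e
  have hL := hG.ler
  refine ⟨n, cxIdeal K (XG fun ω => (phi0 193 ω).trans e), ⟨_, ?_, cxIdeal_eq_span K _⟩, ?_, ?_,
    fun r u Z h1 h2 h3 => ?_⟩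
  · rintro _ ⟨F, -, rfl⟩ j
    rw [coInd_apply]
    split_ifs <;> omega
  · intro h0
    have hm := (monomial_mem_cxIdeal K hL.isLowerSet (a := coInd ∅)).2 (by
      rw [coInd_support]
      exact Set.mem_iUnion.2 ⟨0, ∅, by decide +kernel, rfl⟩)
    rw [h0, Ideal.mem_bot] at hm
    simp at hm
  · exact (CategoryTheory.projectiveDimension_le_iff _ 2).2 (pd_cxIdeal K hL)
  · by_contra hcon
    push Not at hcon
    obtain ⟨D, d1, d2, d3⟩ := cones_of_directSum _ u Z h1 h2 h3
    obtain ⟨b, t, k1, k2⟩ := intervals_of_decomposition K hL.isLowerSet 2 D (fun p hp => by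
      obtain ⟨i, hi, e⟩ := d1 p hp
      have := hcon i hi
      rw [e, Fintype.card_fin]
      omega) d2 d3
    exact hG.no_partition (by norm_num) b t k1 k2

end Pool.Agent.Results.MP_7ffbdd_al.SpdimGtPdim
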