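import Pool.Agent.Lib.MP_7ffbdd_al.Gap

set_option autoImplicit false

namespace Pool.Agent.Results.MP_7ffbdd_al.UnboundedGap

open MvPolynomial Pool.Agent.Lib.MP_7ffbdd_al

/-- Over every field and for every `g ≥ 1` there is a nonzero squarefree monomial ideal of
projective dimension at most `56 g` all of whose Stanley decompositions have a nonzero piece with
at most `n - 57 g - 1` variables. -/
theorem result (K : Type) [Field K] (g : ℕ) (hg : 1 ≤ g) :
    ∃ (n : ℕ) (I : Ideal (MvPolynomial (Fin n) K)),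
      (∃ s : Set (Fin n →₀ ℕ), (∀ a ∈ s, ∀ j, a j ≤ 1) ∧
        I = Ideal.span ((fun a => monomial a (1 : K)) '' s)) ∧
      I ≠ ⊥ ∧
      CategoryTheory.projectiveDimension (ModuleCat.of (MvPolynomial (Fin n) K) I)
        ≤ (56 * g : ℕ) ∧
      ∀ (r : ℕ) (u : Fin r → MvPolynomial (Fin n) K) (Z : Fin r → Finset (Fin n)),
        (∀ i, ∃ a : Fin n → ℤ,
          IsWeightedHomogeneous (fun j => (Pi.single j 1 : Fin n → ℤ)) (u i) a) →
        iSupIndep (fun i => Submodule.map (LinearMap.mulLeft K (u i))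
          (Subalgebra.toSubmodule (supported K (Z i : Set (Fin n))))) →
        (⨆ i, Submodule.map (LinearMap.mulLeft K (u i))
          (Subalgebra.toSubmodule (supported K (Z i : Set (Fin n))))) = I.restrictScalars K →
        ∃ i, u i ≠ 0 ∧ (Z i).card + 57 * g + 1 ≤ n := by
  classical
  obtain ⟨N, hN⟩ : ∃ N, 64 ^ (28 * g) * (28 * g * 3) < N := ⟨_, Nat.lt_succ_self _⟩
  have : NeZero N := ⟨by omega⟩
  let σ := Fin 6 × (Fin 3 → Fin N)
  let n := Fintype.card (Fin (28 * g) × σ)
  let E : Fin (28 * g) × σ ≃ Fin n := Fintype.equivFin _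
  have hG := glued_phi0 N (Function.Embedding.refl σ)
  have hL : Ler (56 * g) {G : Finset (Fin n) | ∀ i, fib (fun s => E (i, s)) G ∈
      XG fun ω => (phi0 N ω).trans (Function.Embedding.refl σ)} := by
    have := hG.ler.pow (fun i s => E (i, s)) Finset.univ
    rw [Finset.card_univ, Fintype.card_fin, ← mul_assoc] at this
    simpa using this
  refine ⟨n, cxIdeal K _, ⟨_, ?_, cxIdeal_eq_span K _⟩, ?_,
    (CategoryTheory.projectiveDimension_le_iff _ _).2 (pd_cxIdeal K hL),
    fun r u Z h1 h2 h3 => ?_⟩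
  · rintro _ ⟨F, -, rfl⟩ j
    rw [coInd_apply]
    split_ifs <;> omega
  · intro h0
    have hm := (monomial_mem_cxIdeal K hL.isLowerSet (a := coInd ∅)).2 (by
      rw [coInd_support]
      intro i
      exact Set.mem_iUnion.2 ⟨0, ∅, by decide +kernel, by ext s; simp [mem_fib]⟩)
    rw [h0, Ideal.mem_bot] at hm
    simp at hm
  · by_contra hcon
    push Not at hcon
    obtain ⟨D, d1, d2, d3⟩ := cones_of_directSum _ u Z h1 h2 h3
    obtain ⟨b, t, k1, k2⟩ := intervals_of_decomposition K hL.isLowerSet (57 * g) D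
      (fun p hp => by
        obtain ⟨i, hi, e⟩ := d1 p hp
        have := hcon i hi
        rw [e, Fintype.card_fin]
        omega) d2 d3
    exact hG.no_partition_pow hg hN E b t k1 k2

end Pool.Agent.Results.MP_7ffbdd_al.UnboundedGap
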